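import Pool.Agent.TH457.HT.ThreeSumR
import Pool.Agent.TH457.HT.Defs

/-!
# Nondeterministic slow heads and the absence of solutions of 3SUM
-/

set_option autoImplicit false

open Finset

namespace Pool.Agent.Y208.TS

open Pool.Agent.TH457.HT

/-- **Nondeterministic slow heads which verify the absence of three numbers with sum zero.** -/
theorem threeSum_nondet (N w : ℕ) {k : ℕ} (P : HeadProg Bool (N * (w + 1)) k) (T S : ℕ)
    (hk : 1 ≤ k) (hS : Fintype.card P.Q * (N * (w + 1)) ^ k ≤ 2 ^ S)
    (hacc : ∀ x : Fin N → ℤ, Function.Injective x → (∀ i, |x i| ≤ (N : ℤ) ^ 4) → ¬ Has3 x →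
      P.AcceptsIn T (zword N w x))
    (hsound : ∀ x : Fin N → ℤ, Function.Injective x → (∀ i, |x i| ≤ (N : ℤ) ^ 4) →
      P.Accepts (zword N w x) → ¬ Has3 x) :
    (N * (w + 1)) ^ 3 ≤ 26000 * (k * (S + 1) * (w + 1) * (k * T + N * (w + 1)) ^ 2) := by
  rcases Nat.lt_or_ge N 15 with hN | hN
  · have h1 : N * (w + 1) ≤ 26000 * (k * (S + 1) * (w + 1)) := by
      have h2 : 1 ≤ k * (S + 1) := Nat.one_le_iff_ne_zero.mpr (by positivity)
      calc N * (w + 1) ≤ 26000 * (w + 1) := Nat.mul_le_mul_right _ (by omega)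
        _ = 26000 * (1 * (w + 1)) := by ring
        _ ≤ 26000 * (k * (S + 1) * (w + 1)) :=
            Nat.mul_le_mul_left _ (Nat.mul_le_mul_right _ h2)
    calc (N * (w + 1)) ^ 3 = N * (w + 1) * (N * (w + 1)) ^ 2 := by ring
      _ ≤ 26000 * (k * (S + 1) * (w + 1)) * (k * T + N * (w + 1)) ^ 2 := by gcongr; omega
      _ = _ := by ring
  have hn : 0 < N * (w + 1) := by positivity
  have hdiv : N * (w + 1) / (3 * (w + 1)) = N / 3 := Nat.mul_div_mul_right N 3 (by omega)
  have hm3 : ∀ m, (m + 1) * (3 * (w + 1)) ≤ N * (w + 1) → 3 * (m + 1) ≤ N := by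
    intro m hm
    have : (3 * (m + 1)) * (w + 1) ≤ N * (w + 1) := by
      calc (3 * (m + 1)) * (w + 1) = (m + 1) * (3 * (w + 1)) := by ring
        _ ≤ _ := hm
    exact Nat.le_of_mul_le_mul_right this (by omega)
  have hex : ∀ m (v : Fin m → Fin (N ^ 2)) (j : ℕ), j < m →
      (fun j => if h : j < m then (v ⟨j, h⟩ : ℕ) else 0) j < N ^ 2 := by
    intro m v j hj
    simp only [hj, dite_true]
    exact (v ⟨j, hj⟩).2
  have hinj : ∀ m, 3 * (m + 1) ≤ N → ∀ v : Fin m → Fin (N ^ 2), Function.Injective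
      (fun a : Fin N => inst N m (fun j => if h : j < m then (v ⟨j, h⟩ : ℕ) else 0) a) := by
    intro m hm v a b hab
    exact Fin.ext (inst_inj N m _ (by omega) (by omega) (hex m v) a b a.2 b.2 hab)
  have h := blocksN3 P (3 * (w + 1)) (N ^ 2) T S hn (by omega) hk
    (by positivity) (by
      rw [hdiv]
      have h1 : 3 * (N / 3) ≤ N := Nat.mul_div_le N 3
      calc 2 * (N / 3) ^ 2 ≤ (3 * (N / 3)) ^ 2 := by
            rw [mul_pow]; exact Nat.mul_le_mul_right _ (by norm_num)
        _ ≤ N ^ 2 := Nat.pow_le_pow_left h1 2)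
    (fun m v => ZW N w m v)
    (fun m v v' q hq => ZW_local N w m v v' q hq)
    (by
      intro m hm v hv
      have hm' := hm3 m hm
      refine hacc _ (hinj m hm' v) (fun a => inst_abs N m _ hN (by omega) (hex m v) a a.2) ?_
      rintro ⟨a, b, c, -, -, -, habc⟩
      obtain ⟨i, j, hi, hj, hij, he⟩ := eq_of_three N m _ (by omega) (by omega) (hex m v) a b c
        a.2 b.2 c.2 habc
      simp only [hi, hj, dite_true] at he
      exact hij (congrArg Fin.val (hv (Fin.ext he))))
    (by
      intro m hm v hv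
      have hm' := hm3 m hm
      have h1 := hsound _ (hinj m hm' v) (fun a => inst_abs N m _ hN (by omega) (hex m v) a a.2) hv
      by_contra hni
      apply h1
      have h3 : ∃ i j : Fin m, i < j ∧ v i = v j := by
        unfold Function.Injective at hni
        push Not at hni
        obtain ⟨a, b, hvab, hab⟩ := hni
        rcases lt_or_gt_of_ne hab with h | h
        · exact ⟨a, b, h, hvab⟩
        · exact ⟨b, a, h, hvab.symm⟩
      obtain ⟨i, j, hij, hvij⟩ := h3
      have hij' : (i : ℕ) < j := hij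
      have hj := j.2
      refine ⟨⟨3 * j, by omega⟩, ⟨3 * i + 1, by omega⟩, ⟨3 * (j - i - 1) + 2, by omega⟩,
        ?_, ?_, ?_, ?_⟩
      · intro h; have := congrArg Fin.val h; simp only at this; omega
      · intro h; have := congrArg Fin.val h; simp only at this; omega
      · intro h; have := congrArg Fin.val h; simp only at this; omega
      · apply three_of_eq N m _ i j hij' hj
        simp only [i.2, j.2, dite_true]
        rw [hvij])
    hS
  refine h.trans ?_
  calc 8456 * (k * (S + 1) * (3 * (w + 1)) * (k * T + N * (w + 1)) ^ 2)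
      = 25368 * (k * (S + 1) * (w + 1) * (k * T + N * (w + 1)) ^ 2) := by ring
    _ ≤ 26000 * (k * (S + 1) * (w + 1) * (k * T + N * (w + 1)) ^ 2) := by gcongr; norm_num

end Pool.Agent.Y208.TS
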